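import Pool.Agent.Lib.MP_6bc78b_nt.MS.QZ.Iface
import Pool.Agent.Lib.MP_6bc78b_nt.MS.P4.H05.Ker

/-! Project MS, Part QZ, module GRD (helper2): the grid. -/

set_option autoImplicit false

open Complex Filter Topology MeasureTheory ArithmeticFunction

namespace Pool.Agent.Lib.MP_6bc78b_nt.MS.QZ.H02

open Pool.Agent.Lib.MP_6bc78b_nt.MS

/-- sums of the Gaussian over well spaced points -/
lemma sum_gauss (S : Finset ℕ) (x : ℕ → ℝ) (s : ℝ) (hs : 0 < s)
    (hgap : ∀ i ∈ S, ∀ j ∈ S, i < j → x i + s ≤ x j) :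
    s * ∑ i ∈ S, Real.exp (-(x i) ^ 2) ≤ Real.sqrt Real.pi + 2 * s := by
  classical
  set S1 := S.filter (fun i => s ≤ |x i|) with hS1
  set S2 := S.filter (fun i => ¬ s ≤ |x i|) with hS2
  have hsplit : ∑ i ∈ S, Real.exp (-(x i) ^ 2) =
      ∑ i ∈ S1, Real.exp (-(x i) ^ 2) + ∑ i ∈ S2, Real.exp (-(x i) ^ 2) :=
    (Finset.sum_filter_add_sum_filter_not S _ _).symm
  -- the points near zero
  have hcard : S2.card ≤ 2 := by
    by_contra hcon
    push Not at hcon
    obtain ⟨a, b, c, ha, hb, hc, hab, hac, hbc⟩ := Finset.two_lt_card_iff.1 hcon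
    rw [hS2, Finset.mem_filter, not_le, abs_lt] at ha hb hc
    rcases lt_trichotomy a b with h1 | h1 | h1
    · rcases lt_trichotomy b c with h2 | h2 | h2
      · linarith [hgap a ha.1 b hb.1 h1, hgap b hb.1 c hc.1 h2, ha.2.1, hc.2.2]
      · exact hbc h2
      · rcases lt_trichotomy a c with h3 | h3 | h3
        · linarith [hgap a ha.1 c hc.1 h3, hgap c hc.1 b hb.1 h2, ha.2.1, hb.2.2]
        · exact hac h3
        · linarith [hgap c hc.1 a ha.1 h3, hgap a ha.1 b hb.1 h1, hc.2.1, hb.2.2]
    · exact hab h1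
    · rcases lt_trichotomy a c with h2 | h2 | h2
      · linarith [hgap b hb.1 a ha.1 h1, hgap a ha.1 c hc.1 h2, hb.2.1, hc.2.2]
      · exact hac h2
      · rcases lt_trichotomy b c with h3 | h3 | h3
        · linarith [hgap b hb.1 c hc.1 h3, hgap c hc.1 a ha.1 h2, hb.2.1, ha.2.2]
        · exact hbc h3
        · linarith [hgap c hc.1 b hb.1 h3, hgap b hb.1 a ha.1 h1, hc.2.1, ha.2.2]
  have hle1 : ∀ i, Real.exp (-(x i) ^ 2) ≤ 1 := fun i => by
    rw [Real.exp_le_one_iff]
    have := sq_nonneg (x i)
    linarith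
  have h2 : ∑ i ∈ S2, Real.exp (-(x i) ^ 2) ≤ 2 := by
    calc ∑ i ∈ S2, Real.exp (-(x i) ^ 2) ≤ ∑ _i ∈ S2, (1 : ℝ) :=
          Finset.sum_le_sum fun i _ => hle1 i
      _ = (S2.card : ℝ) := by simp
      _ ≤ 2 := by exact_mod_cast hcard
  -- the far points
  set J : ℕ → Set ℝ := fun i => if 0 ≤ x i then Set.Ioc (x i - s) (x i) else
    Set.Ioc (x i) (x i + s) with hJ
  have hmeas : ∀ i ∈ S1, MeasurableSet (J i) := by
    intro i _
    simp only [hJ]
    split_ifs
    · exact measurableSet_Ioc
    · exact measurableSet_Ioc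
  have hint : Integrable (fun t : ℝ => Real.exp (-t ^ 2)) := by
    have := integrable_exp_neg_mul_sq (b := 1) one_pos
    simpa using this
  have hdisj : Set.Pairwise (↑S1) (Function.onFun Disjoint J) := by
    have key : ∀ i ∈ S1, ∀ j ∈ S1, i < j → Disjoint (J i) (J j) := by
      intro i hi j hj hij
      rw [hS1, Finset.mem_filter] at hi hj
      have hg := hgap i hi.1 j hj.1 hij
      rw [Set.disjoint_left]
      intro t ht1 ht2
      simp only [hJ] at ht1 ht2
      split_ifs at ht1 ht2 with h3 h4 h4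
      · exact absurd ht2.1 (by linarith [ht1.2])
      · linarith
      · have h5 : s ≤ x j := by
          have := hj.2
          rwa [abs_of_nonneg h4] at this
        have h6 : x i ≤ -s := by
          have := hi.2
          rw [abs_of_neg (not_le.1 h3)] at this
          linarith
        linarith [ht1.2, ht2.1]
      · exact absurd ht2.1 (by linarith [ht1.2])
    intro i hi j hj hij
    rcases lt_or_gt_of_ne hij with h | h
    · exact key i hi j hj h
    · exact (key j hj i hi h).symm
  have hone : ∀ i ∈ S1, s * Real.exp (-(x i) ^ 2) ≤ ∫ t in J i, Real.exp (-t ^ 2) := by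
    intro i hi
    rw [hS1, Finset.mem_filter] at hi
    have hvol : (volume : Measure ℝ).real (J i) = s := by
      simp only [hJ]
      split_ifs
      · rw [Real.volume_real_Ioc_of_le (by linarith)]; ring
      · rw [Real.volume_real_Ioc_of_le (by linarith)]; ring
    have hm : MeasurableSet (J i) := hmeas i (by rw [hS1, Finset.mem_filter]; exact hi)
    have hfin : volume (J i) ≠ ⊤ := by
      simp only [hJ]
      split_ifs
      · exact measure_Ioc_lt_top.ne
      · exact measure_Ioc_lt_top.ne
    have h3 : ∫ _t in J i, Real.exp (-(x i) ^ 2) ≤ ∫ t in J i, Real.exp (-t ^ 2) := by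
      apply setIntegral_mono_on _ hint.integrableOn hm
      · intro t ht
        apply Real.exp_le_exp.2
        have h4 : t ^ 2 ≤ (x i) ^ 2 := by
          simp only [hJ] at ht
          split_ifs at ht with h5
          · have h6 := hi.2
            rw [abs_of_nonneg h5] at h6
            have h7 : 0 ≤ t := by linarith [ht.1]
            nlinarith [ht.2]
          · have h6 := hi.2
            rw [abs_of_neg (not_le.1 h5)] at h6
            have h7 : t ≤ 0 := by linarith [ht.2]
            nlinarith [ht.1]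
        linarith
      · exact integrableOn_const hfin
    rw [setIntegral_const, hvol, smul_eq_mul] at h3
    exact h3
  have h1 : s * ∑ i ∈ S1, Real.exp (-(x i) ^ 2) ≤ Real.sqrt Real.pi := by
    rw [Finset.mul_sum]
    calc ∑ i ∈ S1, s * Real.exp (-(x i) ^ 2) ≤ ∑ i ∈ S1, ∫ t in J i, Real.exp (-t ^ 2) :=
          Finset.sum_le_sum hone
      _ = ∫ t in ⋃ i ∈ S1, J i, Real.exp (-t ^ 2) := by
          rw [integral_biUnion_finset S1 hmeas hdisj fun i _ => hint.integrableOn]
      _ ≤ ∫ t, Real.exp (-t ^ 2) :=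
          setIntegral_le_integral hint (Eventually.of_forall fun t => (Real.exp_pos _).le)
      _ = Real.sqrt Real.pi := by
          have := integral_gaussian 1
          simpa using this
  rw [hsplit, mul_add]
  nlinarith

lemma one_le_pow {T : ℝ} (h : 1 ≤ Real.log T) : 1 ≤ Real.log T ^ (2 / 3 : ℝ) :=
  Real.one_le_rpow h (by norm_num)

lemma DD_le {T : ℝ} (hT : 0 < T) (h : 1 ≤ Real.log T) : DD T ≤ T := by
  unfold DD
  exact div_le_self hT.le (one_le_pow h)

lemma one_le_DD {T : ℝ} (hT : 0 < T) (h : 1 ≤ Real.log T) : 1 ≤ DD T := by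
  unfold DD
  rw [le_div_iff₀ (by linarith [one_le_pow h]), one_mul]
  calc Real.log T ^ (2 / 3 : ℝ) ≤ Real.log T ^ (1 : ℝ) :=
        Real.rpow_le_rpow_of_exponent_le h (by norm_num)
    _ = Real.log T := Real.rpow_one _
    _ ≤ T := by linarith [Real.log_le_sub_one_of_pos hT]

section grid

variable {X h : ℝ}

lemma grd_ge (hX : 3 ≤ X) (hX1 : 1 ≤ Real.log X) (hh : 0 < h) (i : ℕ) :
    X + h * i ≤ grd X h i := by
  induction i with
  | zero => simp [grd]
  | succ i ih =>
    have h1 : X ≤ grd X h i := by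
      have : 0 ≤ h * (i : ℝ) := by positivity
      linarith
    have h2 : 1 ≤ Real.log (grd X h i) :=
      hX1.trans (Real.log_le_log (by linarith) h1)
    have h3 := one_le_DD (T := grd X h i) (by linarith) h2
    have h4 : grd X h (i + 1) = grd X h i + h * DD (grd X h i) := rfl
    rw [h4]
    push_cast
    nlinarith

lemma grd_X (hX : 3 ≤ X) (hX1 : 1 ≤ Real.log X) (hh : 0 < h) (i : ℕ) : X ≤ grd X h i := by
  have h1 := grd_ge hX hX1 hh i
  have : 0 ≤ h * (i : ℝ) := by positivity
  linarith

lemma grd_log (hX : 3 ≤ X) (hX1 : 1 ≤ Real.log X) (hh : 0 < h) (i : ℕ) :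
    1 ≤ Real.log (grd X h i) :=
  hX1.trans (Real.log_le_log (by linarith) (grd_X hX hX1 hh i))

lemma grd_step (hX : 3 ≤ X) (hX1 : 1 ≤ Real.log X) (hh : 0 < h) (i : ℕ) :
    grd X h i < grd X h (i + 1) := by
  have h3 := one_le_DD (T := grd X h i) (by linarith [grd_X hX hX1 hh i]) (grd_log hX hX1 hh i)
  have h4 : grd X h (i + 1) = grd X h i + h * DD (grd X h i) := rfl
  rw [h4]
  nlinarith

lemma grd_mono (hX : 3 ≤ X) (hX1 : 1 ≤ Real.log X) (hh : 0 < h) : StrictMono (grd X h) :=
  strictMono_nat_of_lt_succ (grd_step hX hX1 hh)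

lemma grd_finite (hX : 3 ≤ X) (hX1 : 1 ≤ Real.log X) (hh : 0 < h) (Y : ℝ) :
    {i : ℕ | grd X h i ≤ Y}.Finite := by
  apply (Set.finite_Iic ⌈(Y - X) / h⌉₊).subset
  intro i hi
  rw [Set.mem_ofPred_eq] at hi
  rw [Set.mem_Iic]
  have h1 := grd_ge hX hX1 hh i
  have h2 : (i : ℝ) ≤ (Y - X) / h := by
    rw [le_div_iff₀ hh]
    linarith
  exact_mod_cast h2.trans (Nat.le_ceil _)

/-- the initial segment of the grid below `Y` -/
lemma grd_range (hX : 3 ≤ X) (hX1 : 1 ≤ Real.log X) (hh : 0 < h) (Y : ℝ) :
    ∃ N : ℕ, {i : ℕ | grd X h i ≤ Y} = ↑(Finset.range N) ∧ Y < grd X h N ∧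
      (0 < N → grd X h (N - 1) ≤ Y) := by
  classical
  have hex : ∃ N : ℕ, Y < grd X h N := by
    by_contra hcon
    push Not at hcon
    have h1 := grd_finite hX hX1 hh Y
    have h2 : {i : ℕ | grd X h i ≤ Y} = Set.univ := by
      ext i
      simp [hcon i]
    rw [h2] at h1
    exact Set.infinite_univ h1
  refine ⟨Nat.find hex, ?_, Nat.find_spec hex, ?_⟩
  · ext i
    simp only [Set.mem_ofPred_eq, Finset.coe_range, Set.mem_Iio]
    constructor
    · intro hi
      by_contra hcon
      push Not at hcon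
      have := (grd_mono hX hX1 hh).monotone hcon
      linarith [Nat.find_spec hex]
    · intro hi
      have := Nat.find_min hex hi
      exact not_lt.1 this
  · intro hN
    have := Nat.find_min hex (m := Nat.find hex - 1) (by omega)
    exact not_lt.1 this

end grid

/-- GRD -/
theorem grid : GrdStatement := by
  intro h A hh hh1 hA
  set c : ℝ := 1 + h / 8 with hc
  have hc1 : 1 < c := by rw [hc]; linarith
  have hc2 : c ≤ 2 := by rw [hc]; linarith
  have hc0 : 0 < c := by linarith
  have hinv : 0 < 1 - 1 / c := by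
    have : 1 / c < 1 := by rw [div_lt_one hc0]; exact hc1
    linarith
  set B : ℝ := A / (1 - 1 / c) with hB
  have hB0 : 0 < B := div_pos (by linarith) hinv
  set L0 : ℝ := max 4 (B ^ (3 / 2 : ℝ)) with hL0
  have hX0log : Real.log (Real.exp L0) = L0 := Real.log_exp L0
  have hX03 : 3 ≤ Real.exp L0 := by
    have h1 : (4 : ℝ) ≤ L0 := le_max_left _ _
    have h2 := Real.add_one_le_exp L0
    linarith
  refine ⟨Real.exp L0, hX03, fun X hX => ?_⟩
  have hX3 : 3 ≤ X := hX03.trans hX
  have hXlog : L0 ≤ Real.log X := by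
    rw [← hX0log]
    exact Real.log_le_log (Real.exp_pos _) hX
  have hL4 : (4 : ℝ) ≤ L0 := le_max_left _ _
  have hX1 : 1 ≤ Real.log X := by linarith
  refine ⟨grd_X hX3 hX1 hh, grd_finite hX3 hX1 hh, ?_, ?_, ?_⟩
  · -- clause 3
    intro γ
    set S : Set ℕ := {i : ℕ | |γ - grd X h i| ≤ A * DD (grd X h i)} with hS
    -- comparison for the members
    have hmem : ∀ i ∈ S, grd X h i / c ≤ γ ∧ γ ≤ c * grd X h i := by
      intro i hi
      have h1 := grd_X hX3 hX1 hh i
      have h2 : L0 ≤ Real.log (grd X h i) :=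
        hXlog.trans (Real.log_le_log (by linarith) h1)
      have h3 : B ≤ Real.log (grd X h i) ^ (2 / 3 : ℝ) := by
        have h4 : B ^ (3 / 2 : ℝ) ≤ Real.log (grd X h i) := (le_max_right _ _).trans h2
        have h5 : (B ^ (3 / 2 : ℝ)) ^ (2 / 3 : ℝ) ≤ Real.log (grd X h i) ^ (2 / 3 : ℝ) :=
          Real.rpow_le_rpow (Real.rpow_nonneg hB0.le _) h4 (by norm_num)
        rw [← Real.rpow_mul hB0.le] at h5
        norm_num at h5
        exact h5
      have hT0 : 0 < grd X h i := by linarith
      have h6 : A * DD (grd X h i) ≤ (1 - 1 / c) * grd X h i := by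
        unfold DD
        rw [← mul_div_assoc, div_le_iff₀ (lt_of_lt_of_le hB0 h3)]
        have h7 : A = (1 - 1 / c) * B := by
          rw [hB, mul_div_cancel₀ _ hinv.ne']
        rw [h7]
        have h8 : 0 < (1 - 1 / c) * grd X h i := mul_pos hinv hT0
        nlinarith
      have h9 := abs_le.1 (le_trans hi h6)
      constructor
      · have : grd X h i / c = (1 / c) * grd X h i := by ring
        rw [this]
        linarith [h9.1]
      · have h10 : 2 - 1 / c ≤ c := by
          have e1 : c + 1 / c - 2 = (c - 1) ^ 2 / c := by field_simp; ring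
          have e2 : 0 ≤ (c - 1) ^ 2 / c := by positivity
          linarith
        have := h9.2
        nlinarith
    have hSfin : S.Finite := by
      apply (grd_finite hX3 hX1 hh (c * γ)).subset
      intro i hi
      have h1 := (hmem i hi).1
      rw [div_le_iff₀ hc0] at h1
      rw [Set.mem_ofPred_eq]
      linarith
    by_cases hSe : S = ∅
    · rw [hSe]
      simp only [Set.mem_empty_iff_false, finsum_false, finsum_zero]
      positivity
    obtain ⟨i0, hi0⟩ := Set.nonempty_iff_ne_empty.2 hSe
    have hγ0 : 0 < γ := lt_of_lt_of_le (div_pos (by linarith [grd_X hX3 hX1 hh i0]) hc0)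
      (hmem i0 hi0).1
    have hγ2 : 2 ≤ Real.log γ := by
      have h1 : X / 2 ≤ γ := by
        have h2 := (hmem i0 hi0).1
        have h3 := grd_X hX3 hX1 hh i0
        rw [div_le_iff₀ hc0] at h2
        nlinarith
      have h2 : Real.log (X / 2) ≤ Real.log γ := Real.log_le_log (by linarith) h1
      rw [Real.log_div (by linarith) (by norm_num)] at h2
      have h3 : Real.log 2 ≤ 1 := by
        have := Real.log_le_sub_one_of_pos (x := 2) (by norm_num)
        linarith
      linarith
    have hDγ : 0 < DD γ := by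
      have := one_le_DD hγ0 (by linarith)
      linarith
    have hcomp : ∀ i ∈ S, DD γ / c ≤ DD (grd X h i) ∧ DD (grd X h i) ≤ c * DD γ := by
      intro i hi
      obtain ⟨h1, h2⟩ := hmem i hi
      rw [div_le_iff₀ hc0] at h1
      refine P4.H05.DD_compare hγ2 hγ0 hc1.le hc2 ?_ ?_
      · rw [div_le_iff₀ hc0]; linarith
      · linarith
    rw [finsum_mem_eq_finite_toFinset_sum _ hSfin, ← Finset.mul_sum]
    set x : ℕ → ℝ := fun i => (grd X h i - γ) / (c * DD γ) with hx
    set s : ℝ := h / c ^ 2 with hs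
    have hs0 : 0 < s := by positivity
    have hcD : 0 < c * DD γ := mul_pos hc0 hDγ
    have hgap : ∀ i ∈ hSfin.toFinset, ∀ j ∈ hSfin.toFinset, i < j → x i + s ≤ x j := by
      intro i hi j _ hij
      rw [Set.Finite.mem_toFinset] at hi
      have h1 : grd X h (i + 1) ≤ grd X h j := (grd_mono hX3 hX1 hh).monotone hij
      have h2 : grd X h (i + 1) = grd X h i + h * DD (grd X h i) := rfl
      have h3 := (hcomp i hi).1
      have h4 : x i + s = (grd X h i - γ + h * (DD γ / c)) / (c * DD γ) := by
        rw [hx, hs]; field_simp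
      rw [h4]
      simp only [hx]
      apply div_le_div_of_nonneg_right _ hcD.le
      have h5 : h * (DD γ / c) ≤ h * DD (grd X h i) := mul_le_mul_of_nonneg_left h3 hh.le
      linarith
    have hwt : ∀ i ∈ hSfin.toFinset, wt (grd X h i) γ ≤ Real.exp (-(x i) ^ 2) := by
      intro i hi
      rw [Set.Finite.mem_toFinset] at hi
      unfold wt
      apply Real.exp_le_exp.2
      have h3 := (hcomp i hi).2
      have h4 : 0 < DD (grd X h i) := lt_of_lt_of_le (div_pos hDγ hc0) (hcomp i hi).1
      have h5 : (x i) ^ 2 = (γ - grd X h i) ^ 2 / (c * DD γ) ^ 2 := by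
        simp only [hx, div_pow]
        congr 1
        ring
      rw [neg_div, neg_le_neg_iff, h5]
      exact div_le_div_of_nonneg_left (sq_nonneg _) (by positivity)
        (pow_le_pow_left₀ h4.le h3 2)
    have h1 := sum_gauss hSfin.toFinset x s hs0 hgap
    have h2 : ∑ i ∈ hSfin.toFinset, wt (grd X h i) γ ≤
        ∑ i ∈ hSfin.toFinset, Real.exp (-(x i) ^ 2) := Finset.sum_le_sum hwt
    have h3 : h * ∑ i ∈ hSfin.toFinset, Real.exp (-(x i) ^ 2) ≤
        c ^ 2 * Real.sqrt Real.pi + 2 * h := by
      have h4 : h = c ^ 2 * s := by rw [hs]; field_simp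
      have h5 : c ^ 2 * (s * ∑ i ∈ hSfin.toFinset, Real.exp (-(x i) ^ 2)) ≤
          c ^ 2 * (Real.sqrt Real.pi + 2 * s) := mul_le_mul_of_nonneg_left h1 (by positivity)
      calc h * ∑ i ∈ hSfin.toFinset, Real.exp (-(x i) ^ 2)
          = c ^ 2 * (s * ∑ i ∈ hSfin.toFinset, Real.exp (-(x i) ^ 2)) := by
            rw [← mul_assoc, ← h4]
        _ ≤ c ^ 2 * (Real.sqrt Real.pi + 2 * s) := h5
        _ = c ^ 2 * Real.sqrt Real.pi + 2 * (c ^ 2 * s) := by ring
        _ = c ^ 2 * Real.sqrt Real.pi + 2 * h := by rw [← h4]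
    have h6 : Real.sqrt Real.pi ≤ 2 := by
      rw [Real.sqrt_le_left (by norm_num)]
      linarith [Real.pi_le_four]
    have h7 : c ^ 2 ≤ 1 + h / 2 := by
      rw [hc]; nlinarith
    have h8 : 0 ≤ Real.sqrt Real.pi := Real.sqrt_nonneg _
    have h9 : h * ∑ i ∈ hSfin.toFinset, wt (grd X h i) γ ≤
        h * ∑ i ∈ hSfin.toFinset, Real.exp (-(x i) ^ 2) := mul_le_mul_of_nonneg_left h2 hh.le
    nlinarith
  · -- clause 4
    intro δ hδ
    set C : ℝ := |X * Real.log X - 2 * X| with hC
    filter_upwards [eventually_ge_atTop (Real.exp ((2 + C) / δ)), eventually_ge_atTop X] with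
      Y hY1 hY2
    obtain ⟨N, hN, hN1, _⟩ := grd_range hX3 hX1 hh Y
    have hkey : ∑ᶠ i ∈ {i : ℕ | grd X h i ≤ Y}, h * DD (grd X h i) * Real.log (grd X h i) =
        ∑ i ∈ Finset.range N, h * DD (grd X h i) * Real.log (grd X h i) := by
      rw [hN, finsum_mem_coe_finset]
    change _ ≤ ∑ᶠ i ∈ {i : ℕ | grd X h i ≤ Y}, h * DD (grd X h i) * Real.log (grd X h i)
    rw [hkey]
    have hY0 : 0 < Y := by linarith
    have hstep : ∀ i, (grd X h (i + 1) * Real.log (grd X h (i + 1)) - 2 * grd X h (i + 1)) -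
        (grd X h i * Real.log (grd X h i) - 2 * grd X h i) ≤
        h * DD (grd X h i) * Real.log (grd X h i) := by
      intro i
      have ha : 0 < grd X h i := by linarith [grd_X hX3 hX1 hh i]
      have hl := grd_log hX3 hX1 hh i
      have hb : grd X h (i + 1) = grd X h i + h * DD (grd X h i) := rfl
      have hab := grd_step hX3 hX1 hh i
      have hb0 : 0 < grd X h (i + 1) := ha.trans hab
      have h1 : Real.log (grd X h (i + 1)) - Real.log (grd X h i) ≤
          (grd X h (i + 1) - grd X h i) / grd X h i := by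
        rw [← Real.log_div hb0.ne' ha.ne']
        have := Real.log_le_sub_one_of_pos (div_pos hb0 ha)
        calc Real.log (grd X h (i + 1) / grd X h i) ≤ grd X h (i + 1) / grd X h i - 1 := this
          _ = (grd X h (i + 1) - grd X h i) / grd X h i := by field_simp
      have h2 : (grd X h (i + 1) - grd X h i) / grd X h i ≤ 1 := by
        rw [div_le_one ha, hb]
        have := DD_le ha hl
        have h3 : 0 ≤ DD (grd X h i) := by linarith [one_le_DD ha hl]
        nlinarith
      set a := grd X h i with ha'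
      set b := grd X h (i + 1) with hb'
      have h3 : h * DD a = b - a := by rw [hb]; ring
      rw [h3]
      have h4 : a * (Real.log b - Real.log a) ≤ b - a := by
        have := mul_le_mul_of_nonneg_left h1 ha.le
        rwa [mul_div_cancel₀ _ ha.ne'] at this
      have h5 : (b - a) * (Real.log b - Real.log a) ≤ (b - a) * 1 :=
        mul_le_mul_of_nonneg_left (h1.trans h2) (by linarith)
      nlinarith
    have hsum : (grd X h N * Real.log (grd X h N) - 2 * grd X h N) -
        (X * Real.log X - 2 * X) ≤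
        ∑ i ∈ Finset.range N, h * DD (grd X h i) * Real.log (grd X h i) := by
      have h1 := Finset.sum_range_sub
        (fun i => grd X h i * Real.log (grd X h i) - 2 * grd X h i) N
      have h0 : grd X h 0 = X := rfl
      rw [h0] at h1
      rw [← h1]
      exact Finset.sum_le_sum fun i _ => hstep i
    have hmono : Y * Real.log Y - 2 * Y ≤ grd X h N * Real.log (grd X h N) - 2 * grd X h N := by
      set b := grd X h N with hb'
      have hb0 : 0 < b := by linarith
      have h1 : 1 - Y / b ≤ Real.log b - Real.log Y := by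
        rw [← Real.log_div hb0.ne' hY0.ne']
        have := Real.one_sub_inv_le_log_of_pos (div_pos hb0 hY0)
        rwa [inv_div] at this
      have h2 : b - Y ≤ b * (Real.log b - Real.log Y) := by
        have := mul_le_mul_of_nonneg_left h1 hb0.le
        calc b - Y = b * (1 - Y / b) := by field_simp
          _ ≤ _ := this
      have h3 : 1 ≤ Real.log Y := hX1.trans (Real.log_le_log (by linarith) hY2)
      nlinarith
    have hlogY : (2 + C) / δ ≤ Real.log Y := by
      rw [← Real.log_exp ((2 + C) / δ)]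
      exact Real.log_le_log (Real.exp_pos _) hY1
    rw [div_le_iff₀ hδ] at hlogY
    have hC1 : X * Real.log X - 2 * X ≤ C := le_abs_self _
    have hC0 : 0 ≤ C := abs_nonneg _
    have hY1' : 1 ≤ Y := by linarith
    have h6 : (2 + C) * Y ≤ Real.log Y * δ * Y := mul_le_mul_of_nonneg_right hlogY hY0.le
    nlinarith
  · -- clause 5
    intro Y hY
    obtain ⟨N, hN, hN1, hN2⟩ := grd_range hX3 hX1 hh Y
    rw [hN, finsum_mem_coe_finset]
    have hsum : ∑ i ∈ Finset.range N, h * DD (grd X h i) = grd X h N - X := by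
      have h1 := Finset.sum_range_sub (fun i => grd X h i) N
      have h0 : grd X h 0 = X := rfl
      rw [h0] at h1
      rw [← h1]
      apply Finset.sum_congr rfl
      intro i _
      have hb : grd X h (i + 1) = grd X h i + h * DD (grd X h i) := rfl
      rw [hb]; ring
    rw [hsum]
    rcases Nat.eq_zero_or_pos N with hN0 | hN0
    · rw [hN0]
      have h0 : grd X h 0 = X := rfl
      rw [h0]
      linarith
    · have h1 := hN2 hN0
      obtain ⟨M, rfl⟩ : ∃ M, N = M + 1 := ⟨N - 1, by omega⟩
      have h2 : M + 1 - 1 = M := by omega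
      rw [h2] at h1
      have hb : grd X h (M + 1) = grd X h M + h * DD (grd X h M) := rfl
      have ha : 0 < grd X h M := by linarith [grd_X hX3 hX1 hh M]
      have h3 := DD_le ha (grd_log hX3 hX1 hh M)
      have h4 : 0 ≤ DD (grd X h M) := by linarith [one_le_DD ha (grd_log hX3 hX1 hh M)]
      rw [hb]
      nlinarith

end Pool.Agent.Lib.MP_6bc78b_nt.MS.QZ.H02
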